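import Pool.Agent.H.MP_e46b3e_an.B

set_option autoImplicit false
open MeasureTheory

namespace Pool.Agent.H.MP_e46b3e_an

noncomputable def st (a b c1 c2 c3 u : ℝ) : ℝ := if u ≤ a then c1 else if u ≤ b then c2 else c3

lemma int_cut {a r : ℝ} (hr : 0 ≤ r) (h0 : 0 ≤ a) (h1 : a ≤ 1) :
    Integrable ((Set.Iic a).indicator fun u : ℝ => u ^ r) nu ∧
    ∫ u, (Set.Iic a).indicator (fun u : ℝ => u ^ r) u ∂nu = a ^ (r + 1) / (r + 1) := by
  refine ⟨(int_pow hr).indicator measurableSet_Iic, ?_⟩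
  rw [integral_indicator measurableSet_Iic]
  unfold nu
  rw [Measure.restrict_restrict measurableSet_Iic]
  have : Set.Iic a ∩ Set.Icc 0 1 = Set.Icc 0 a := by
    ext u; simp only [Set.mem_inter_iff, Set.mem_Iic, Set.mem_Icc]
    constructor
    · rintro ⟨h, h', -⟩; exact ⟨h', h⟩
    · rintro ⟨h, h'⟩; exact ⟨h', h, h'.trans h1⟩
  rw [this, integral_Icc_eq_integral_Ioc, ← intervalIntegral.integral_of_le h0,
    integral_rpow (Or.inl (by linarith)), Real.zero_rpow (by linarith), sub_zero]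

lemma int_one {r : ℝ} (hr : 0 ≤ r) : ∫ u, u ^ r ∂nu = 1 / (r + 1) := by
  unfold nu
  rw [integral_Icc_eq_integral_Ioc, ← intervalIntegral.integral_of_le zero_le_one,
    integral_rpow (Or.inl (by linarith)), Real.zero_rpow (by linarith), sub_zero, Real.one_rpow]

lemma int_st {a b r : ℝ} (c1 c2 c3 : ℝ) (hr : 0 ≤ r) (h0 : 0 ≤ a) (hab : a ≤ b) (h1 : b ≤ 1) :
    Integrable (fun u => st a b c1 c2 c3 u * u ^ r) nu ∧
    ∫ u, st a b c1 c2 c3 u * u ^ r ∂nu =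
      (c1 * a ^ (r + 1) + c2 * (b ^ (r + 1) - a ^ (r + 1)) + c3 * (1 - b ^ (r + 1))) / (r + 1) := by
  have e : (fun u => st a b c1 c2 c3 u * u ^ r) = fun u => c3 * u ^ r +
      ((c2 - c3) * (Set.Iic b).indicator (fun u : ℝ => u ^ r) u +
        (c1 - c2) * (Set.Iic a).indicator (fun u : ℝ => u ^ r) u) := by
    funext u
    unfold st
    by_cases ha : u ≤ a
    · simp [ha, ha.trans hab]; ring
    · by_cases hb : u ≤ b
      · simp [ha, hb]; ring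
      · simp [ha, hb]
  obtain ⟨Ia, Ea⟩ := int_cut hr h0 (hab.trans h1)
  obtain ⟨Ib, Eb⟩ := int_cut hr (h0.trans hab) h1
  have I2 : Integrable (fun u => (c2 - c3) * (Set.Iic b).indicator (fun u : ℝ => u ^ r) u +
        (c1 - c2) * (Set.Iic a).indicator (fun u : ℝ => u ^ r) u) nu :=
    (Ib.const_mul _).add (Ia.const_mul _)
  rw [e]
  refine ⟨((int_pow hr).const_mul _).add I2, ?_⟩
  rw [integral_add ((int_pow hr).const_mul _) I2, integral_add (Ib.const_mul _) (Ia.const_mul _),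
    integral_const_mul, integral_const_mul, integral_const_mul, Ea, Eb, int_one hr]
  ring

lemma prod_st {κ : Type*} [Fintype κ] (a b : ℝ) (c1 c2 c3 : κ → ℝ) (u : ℝ) :
    ∏ r, st a b (c1 r) (c2 r) (c3 r) u = st a b (∏ r, c1 r) (∏ r, c2 r) (∏ r, c3 r) u := by
  unfold st; split_ifs <;> rfl

lemma params {p : ℝ} (hp : 1 < p) (Q : ℕ) : ∃ a b δ : ℝ, 0 < a ∧ a ≤ b ∧ b ≤ 1 ∧
    b ^ p - a ^ p = 1 - b ^ p ∧ b ^ (p + 1) - a ^ (p + 1) < 1 - b ^ (p + 1) ∧ 0 < δ ∧ δ < 1 ∧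
    (b ^ (p + 1) - a ^ (p + 1)) * (1 + δ) ^ Q ≤ (1 - b ^ (p + 1)) * (1 - δ) ^ Q := by
  have hp0 : 0 < p := by linarith
  have hi : 0 ≤ p⁻¹ := by positivity
  have e1 : ∀ y : ℝ, 0 ≤ y → (y ^ p⁻¹) ^ p = y := fun y hy => Real.rpow_inv_rpow hy hp0.ne'
  have e2 : ∀ y : ℝ, 0 ≤ y → (y ^ p⁻¹) ^ (p + 1) = y ^ (p⁻¹ * (p + 1)) := fun y hy =>
    (Real.rpow_mul hy _ _).symm
  have hr : 1 < p⁻¹ * (p + 1) := by
    rw [mul_add, inv_mul_cancel₀ hp0.ne', mul_one]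
    have : 0 < p⁻¹ := by positivity
    linarith
  have hc0 := (strictConvexOn_rpow hr).2
  have hc := @hc0 (1 / 3) (by norm_num) 1 (by norm_num)
    (by norm_num) (1 / 2) (1 / 2) (by norm_num) (by norm_num) (by norm_num)
  simp only [smul_eq_mul, Real.one_rpow] at hc
  rw [show (1 / 2 * (1 / 3) + 1 / 2 * 1 : ℝ) = 2 / 3 by norm_num] at hc
  have hlt : ((2 / 3 : ℝ) ^ p⁻¹) ^ (p + 1) - ((1 / 3 : ℝ) ^ p⁻¹) ^ (p + 1)
      < 1 - ((2 / 3 : ℝ) ^ p⁻¹) ^ (p + 1) := by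
    rw [e2 _ (by norm_num), e2 _ (by norm_num)]; linarith
  obtain ⟨A, hA⟩ : ∃ A, A = ((2 / 3 : ℝ) ^ p⁻¹) ^ (p + 1) - ((1 / 3 : ℝ) ^ p⁻¹) ^ (p + 1) := ⟨_, rfl⟩
  obtain ⟨B, hB⟩ : ∃ B, B = 1 - ((2 / 3 : ℝ) ^ p⁻¹) ^ (p + 1) := ⟨_, rfl⟩
  have hAB : A < B := by rw [hA, hB]; exact hlt
  have hcont : Continuous fun δ : ℝ => B * (1 - δ) ^ Q - A * (1 + δ) ^ Q := by fun_prop
  have hev : ∀ᶠ δ in nhds (0:ℝ), 0 < B * (1 - δ) ^ Q - A * (1 + δ) ^ Q :=
    hcont.continuousAt.eventually (lt_mem_nhds (by simpa using hAB))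
  have hev2 : ∀ᶠ δ in nhds (0:ℝ), δ < 1 := gt_mem_nhds one_pos
  obtain ⟨δ, ⟨h1, h2⟩, h3⟩ := (((hev.and hev2).filter_mono nhdsWithin_le_nhds).and
    (self_mem_nhdsWithin (s := Set.Ioi (0:ℝ)))).exists
  refine ⟨(1 / 3) ^ p⁻¹, (2 / 3) ^ p⁻¹, δ, by positivity,
    Real.rpow_le_rpow (by norm_num) (by norm_num) hi,
    Real.rpow_le_one (by norm_num) (by norm_num) hi, ?_, hlt, h3, h2, ?_⟩
  · rw [e1 _ (by norm_num), e1 _ (by norm_num)]; norm_num
  · rw [← hA, ← hB]; linarith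

theorem main {p : ℝ} (hp : 1 < p) : ∃ μ m : ℝ, 0 < m ∧ m < μ ∧
    ∀ {d n : ℕ} (x : Fin n → Fin d → ℝ) (a : Fin n → ℝ) {ε : ℝ}, 0 < ε → ε ≤ 1 / 16 →
    ∫ t, |(∏ i, t i) - ∑ j, a j * ∏ i, ind (x j i) (t i)| ^ p
        ∂(Measure.pi fun _ : Fin d => nu)
      ≤ ε ^ p * ∫ t, |∏ i, t i| ^ p ∂(Measure.pi fun _ : Fin d => nu) →
    μ ^ d / 4 ≤ n * (μ - m) ^ d := by
  obtain ⟨k, hk⟩ := exists_nat_ge p.conjExponent
  obtain ⟨a, b, δ, ha, hab, hb, hE, hL, hδ, hδ1, hQ⟩ := params hp (k + k)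
  have hp0 : 0 ≤ p := by linarith
  have hp1 : 0 < p + 1 := by linarith
  let v1 : Fin 3 → ℝ := ![1 - δ, 0, δ]
  let v2 : Fin 3 → ℝ := ![1 + δ, -δ, 0]
  let v3 : Fin 3 → ℝ := ![1 - δ, δ, 0]
  let h : Fin 3 → ℝ → ℝ := fun s => st a b (v1 s) (v2 s) (v3 s)
  have m1 : 0 < a ^ (p + 1) := by positivity
  have m2 : 0 ≤ b ^ (p + 1) - a ^ (p + 1) :=
    sub_nonneg.2 (Real.rpow_le_rpow ha.le hab hp1.le)
  obtain ⟨M1, hM1⟩ : ∃ M, M = a ^ (p + 1) := ⟨_, rfl⟩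
  obtain ⟨M2, hM2⟩ : ∃ M, M = b ^ (p + 1) - a ^ (p + 1) := ⟨_, rfl⟩
  obtain ⟨M3, hM3⟩ : ∃ M, M = 1 - b ^ (p + 1) := ⟨_, rfl⟩
  have hs : ∀ c1 c2 c3, Integrable (fun u => st a b c1 c2 c3 u * u ^ p) nu ∧
      ∫ u, st a b c1 c2 c3 u * u ^ p ∂nu = (c1 * M1 + c2 * M2 + c3 * M3) / (p + 1) := by
    intro c1 c2 c3
    rw [hM1, hM2, hM3]; exact int_st c1 c2 c3 hp0 ha.le hab hb
  have hsum : M1 + M2 + M3 = 1 := by rw [hM1, hM2, hM3]; ring
  rw [← hM2, ← hM3] at hL hQ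
  rw [← hM2] at m2
  rw [← hM1] at m1
  have g1 : 0 < δ * M1 / (p + 1) := by positivity
  have g2 : 0 < δ * (M3 - M2) / (p + 1) := by
    have : 0 < M3 - M2 := by linarith
    positivity
  refine ⟨∫ u, u ^ p ∂nu, min (δ * M1 / (p + 1)) (δ * (M3 - M2) / (p + 1)), lt_min g1 g2, ?_, ?_⟩
  · rw [int_one hp0]
    refine (min_le_left _ _).trans_lt (div_lt_div_of_pos_right ?_ hp1)
    nlinarith
  intro d n x w ε hε0 hε hyp
  have n1 : ∀ s, 0 ≤ v1 s := by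
    intro s; fin_cases s <;> simp [v1] <;> linarith
  have n3 : ∀ s, 0 ≤ v3 s := by
    intro s; fin_cases s <;> simp [v3] <;> linarith
  have n2 : ∀ s, |v2 s| * (1 - δ) ≤ (1 + δ) * v3 s := by
    intro s; fin_cases s
    · simp [v2, v3]; rw [abs_of_pos (by linarith)]
    · simp [v2, v3]; rw [abs_of_pos hδ]; nlinarith
    · simp [v2, v3]
  refine core hp (k + k) (by push_cast; have : (0:ℝ) ≤ k := Nat.cast_nonneg k; linarith) ⟨k, rfl⟩
    h _ ?_ ?_ ?_ ?_ ?_ x w hε0 hε hyp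
  · intro u
    simp only [h, st, Fin.sum_univ_three]
    split_ifs <;> simp [v1, v2, v3]
  · intro s
    simp only [h, prod_st]
    refine ⟨(hs _ _ _).1, ?_⟩
    rw [(hs _ _ _).2]
    refine div_nonneg ?_ hp1.le
    have p1 : 0 ≤ ∏ r, v1 (s r) := Finset.prod_nonneg fun r _ => n1 _
    have p3 : 0 ≤ ∏ r, v3 (s r) := Finset.prod_nonneg fun r _ => n3 _
    have p2 : |∏ r, v2 (s r)| * (1 - δ) ^ (k + k) ≤ (1 + δ) ^ (k + k) * ∏ r, v3 (s r) := by
      have := Finset.prod_le_prod (s := Finset.univ) (f := fun r => |v2 (s r)| * (1 - δ))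
        (g := fun r => (1 + δ) * v3 (s r))
        (fun r _ => mul_nonneg (abs_nonneg _) (by linarith)) (fun r _ => n2 _)
      rw [Finset.prod_mul_distrib, Finset.prod_mul_distrib, ← Finset.abs_prod] at this
      simpa using this
    have p4 : 0 < (1 - δ) ^ (k + k) := pow_pos (by linarith) _
    have p5 : |∏ r, v2 (s r)| * M2 ≤ (∏ r, v3 (s r)) * M3 := by
      refine le_of_mul_le_mul_right ?_ p4
      have a1 := mul_le_mul_of_nonneg_left p2 m2
      have a2 := mul_le_mul_of_nonneg_right hQ p3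
      nlinarith
    have p6 := mul_le_mul_of_nonneg_right (neg_abs_le (∏ r, v2 (s r))) m2
    have p7 := mul_nonneg p1 m1.le
    linarith
  · intro s
    refine ⟨(hs _ _ _).1, ?_⟩
    simp only [h]
    rw [(hs _ _ _).2]
    refine div_nonneg ?_ hp1.le
    fin_cases s <;> simp [v1, v2, v3] <;> nlinarith
  · intro s y
    have := (int_st (v1 s) (v2 s) (v3 s) (r := p - 1) (by linarith) ha.le hab hb).1
    refine this.mul_bdd (c := 1) (ind_meas y).aestronglyMeasurable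
      (Filter.Eventually.of_forall fun u => abs_ind y u)
  · intro y
    by_cases hy : y ≤ a
    · refine ⟨1, ?_, ?_⟩
      · simp only [h]
        rw [(hs _ _ _).2]
        refine (min_le_right _ _).trans (le_of_eq ?_)
        simp [v1, v2, v3]; ring
      · have e : (fun u => h 1 u * u ^ (p - 1) * ind y u) = fun u => h 1 u * u ^ (p - 1) := by
          funext u
          by_cases hu : u ≤ a
          · simp [h, st, hu, v1]
          · have : y < u := by linarith [not_le.1 hu]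
            simp [ind, this]
        rw [e]
        simp only [h]
        rw [(int_st _ _ _ (r := p - 1) (by linarith) ha.le hab hb).2, sub_add_cancel, hE]
        simp [v1, v2, v3]
    · refine ⟨2, ?_, ?_⟩
      · simp only [h]
        rw [(hs _ _ _).2]
        refine (min_le_left _ _).trans (le_of_eq ?_)
        simp [v1, v2, v3]
      · have e : (fun u => h 2 u * u ^ (p - 1) * ind y u) = fun _ => 0 := by
          funext u
          by_cases hu : u ≤ a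
          · have : ¬ y < u := by linarith [not_le.1 hy]
            simp [ind, this]
          · simp [h, st, hu, v2, v3]
        rw [e, integral_zero]

end Pool.Agent.H.MP_e46b3e_an
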