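import Mathlib

set_option autoImplicit false
open MeasureTheory

namespace Pool.Agent.H.MP_e46b3e_an

noncomputable def nu : Measure ℝ := volume.restrict (Set.Icc (0:ℝ) 1)

instance : IsFiniteMeasure nu := by unfold nu; infer_instance

lemma restrict_eq (d : ℕ) :
    (volume : Measure (Fin d → ℝ)).restrict (Set.Icc 0 1) = Measure.pi fun _ => nu := by
  rw [volume_pi, ← Set.pi_univ_Icc, Measure.restrict_pi_pi]; rfl

lemma sumprod {d : ℕ} {κ : Type*} (S : Finset κ) (f : κ → Fin d → ℝ → ℝ)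
    (hf : ∀ k i, Integrable (f k i) nu) :
    Integrable (fun t : Fin d → ℝ => ∑ k ∈ S, ∏ i, f k i (t i)) (Measure.pi fun _ => nu) ∧
    ∫ t, ∑ k ∈ S, ∏ i, f k i (t i) ∂(Measure.pi fun _ : Fin d => nu)
      = ∑ k ∈ S, ∏ i, ∫ u, f k i u ∂nu := by
  have h1 : ∀ k ∈ S, Integrable (fun t : Fin d → ℝ => ∏ i, f k i (t i))
      (Measure.pi fun _ => nu) := fun k _ => Integrable.fintype_prod (fun i => hf k i)
  refine ⟨integrable_finsetSum _ h1, ?_⟩
  rw [integral_finsetSum _ h1]
  exact Finset.sum_congr rfl fun k _ => integral_fintype_prod_eq_prod _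

lemma young {p q : ℝ} (hpq : p.HolderConjugate q) (Q : ℕ) (hQ : q ≤ Q) (hQe : Even Q)
    (g V y : ℝ) (hV : 0 ≤ V) :
    g * V ^ (p - 1) * y ≤ (V ^ p + g ^ Q * V ^ p) / 4 + 4 ^ p * |y| ^ p := by
  have hp1 : 1 < p := hpq.lt
  have hq1 : 1 < q := hpq.symm.lt
  have h := Real.young_inequality (4 * y) (g * V ^ (p - 1) / 4) hpq
  have e1 : |4 * y| ^ p = 4 ^ p * |y| ^ p := by
    rw [abs_mul, Real.mul_rpow (abs_nonneg _) (abs_nonneg _)]; norm_num
  have hVp : 0 ≤ V ^ (p - 1) := Real.rpow_nonneg hV _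
  have e2 : |g * V ^ (p - 1) / 4| ^ q = |g| ^ q / 4 ^ q * V ^ p := by
    rw [abs_div, abs_mul, abs_of_nonneg hVp, Real.div_rpow (by positivity) (abs_nonneg _),
      Real.mul_rpow (abs_nonneg _) hVp, ← Real.rpow_mul hV, hpq.sub_one_mul_conj]
    norm_num; ring
  have e3 : |g| ^ q ≤ 1 + g ^ Q := by
    have hg : g ^ Q = |g| ^ Q := (hQe.pow_abs g).symm
    rw [hg]
    by_cases h1 : |g| ≤ 1
    · have := Real.rpow_le_one (abs_nonneg g) h1 (by linarith : (0:ℝ) ≤ q)
      have : 0 ≤ |g| ^ Q := by positivity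
      linarith
    · push Not at h1
      have := Real.rpow_le_rpow_of_exponent_le h1.le hQ
      rw [Real.rpow_natCast] at this
      linarith
  have e4 : (4:ℝ) ≤ 4 ^ q := by
    have := Real.rpow_le_rpow_of_exponent_le (by norm_num : (1:ℝ) ≤ 4) hq1.le
    rwa [Real.rpow_one] at this
  have hVp' : 0 ≤ V ^ p := Real.rpow_nonneg hV _
  have e5 : |g| ^ q / 4 ^ q ≤ (1 + g ^ Q) / 4 := by
    have h0 : 0 ≤ |g| ^ q := by positivity
    calc |g| ^ q / 4 ^ q ≤ |g| ^ q / 4 := div_le_div_of_nonneg_left h0 (by norm_num) e4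
      _ ≤ _ := by linarith
  rw [e1, e2] at h
  have a1 : 4 ^ p * |y| ^ p / p ≤ 4 ^ p * |y| ^ p := div_le_self (by positivity) hp1.le
  have a2 : |g| ^ q / 4 ^ q * V ^ p / q ≤ |g| ^ q / 4 ^ q * V ^ p :=
    div_le_self (by positivity) hq1.le
  have a3 := mul_le_mul_of_nonneg_right e5 hVp'
  have e0 : g * V ^ (p - 1) * y = 4 * y * (g * V ^ (p - 1) / 4) := by ring
  rw [e0]
  have : (1 + g ^ Q) / 4 * V ^ p = (V ^ p + g ^ Q * V ^ p) / 4 := by ring
  linarith

noncomputable def ind (x u : ℝ) : ℝ := if x < u then 1 else 0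

lemma ind_prod {d : ℕ} (x t : Fin d → ℝ) :
    Set.indicator {y : Fin d → ℝ | ∀ i, x i < y i} (fun _ => (1 : ℝ)) t
      = ∏ i, ind (x i) (t i) := by
  by_cases h : ∀ i, x i < t i
  · rw [Set.indicator_of_mem (by exact h)]
    exact (Finset.prod_eq_one fun i _ => by simp [ind, h i]).symm
  · rw [Set.indicator_of_notMem (by exact h)]
    push Not at h
    obtain ⟨i, hi⟩ := h
    exact (Finset.prod_eq_zero (Finset.mem_univ i) (by simp [ind, hi])).symm

lemma dropped {d n : ℕ} (α : Fin 3 → ℝ) (hα : ∀ s, 0 ≤ α s) (m : ℝ) (k : Fin n → Fin d → Fin 3)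
    (hk : ∀ j i, m ≤ α (k j i)) :
    (∑ s, α s) ^ d - n * (∑ s, α s - m) ^ d ≤
      ∑ w ∈ Finset.univ.filter (fun w : Fin d → Fin 3 => ∀ j, ∃ i, w i = k j i), ∏ i, α (w i) := by
  classical
  have tot : (∑ s, α s) ^ d = ∑ w : Fin d → Fin 3, ∏ i, α (w i) := by
    rw [Finset.sum_pow', Fintype.piFinset_univ]
  have one : ∀ j, ∑ w : Fin d → Fin 3, (if ∀ i, w i ≠ k j i then ∏ i, α (w i) else 0)
      ≤ (∑ s, α s - m) ^ d := by
    intro j
    have e : ∀ w : Fin d → Fin 3, (if ∀ i, w i ≠ k j i then ∏ i, α (w i) else 0)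
        = ∏ i, (if w i ≠ k j i then α (w i) else 0) := by
      intro w
      split_ifs with h
      · exact Finset.prod_congr rfl fun i _ => by simp [h i]
      · push Not at h
        obtain ⟨i, hi⟩ := h
        exact (Finset.prod_eq_zero (Finset.mem_univ i) (by simp [hi])).symm
    simp_rw [e]
    have := Finset.prod_univ_sum (fun _ : Fin d => (Finset.univ : Finset (Fin 3)))
      (fun i s => if s ≠ k j i then α s else 0)
    rw [Fintype.piFinset_univ] at this
    rw [← this]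
    calc ∏ i, ∑ s, (if s ≠ k j i then α s else 0) ≤ ∏ _i : Fin d, (∑ s, α s - m) := by
          refine Finset.prod_le_prod (fun i _ => Finset.sum_nonneg fun s _ => ?_) fun i _ => ?_
          · split_ifs
            · exact hα s
            · exact le_rfl
          · have : ∑ s, α s = ∑ s, (if s ≠ k j i then α s else 0) + α (k j i) := by
              rw [← Finset.sum_filter, Finset.filter_ne', Finset.sum_erase_add _ _ (Finset.mem_univ _)]
            have := hk j i
            linarith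
      _ = _ := by simp
  have two : ∑ w : Fin d → Fin 3, ∏ i, α (w i) ≤
      ∑ w ∈ Finset.univ.filter (fun w : Fin d → Fin 3 => ∀ j, ∃ i, w i = k j i), ∏ i, α (w i)
      + ∑ j, ∑ w : Fin d → Fin 3, (if ∀ i, w i ≠ k j i then ∏ i, α (w i) else 0) := by
    rw [Finset.sum_comm, Finset.sum_filter, ← Finset.sum_add_distrib]
    refine Finset.sum_le_sum fun w _ => ?_
    have hw : 0 ≤ ∏ i, α (w i) := Finset.prod_nonneg fun i _ => hα _
    have hn : ∀ j, 0 ≤ (if ∀ i, w i ≠ k j i then ∏ i, α (w i) else 0) := by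
      intro j; split_ifs
      · exact hw
      · exact le_rfl
    split_ifs with h
    · have := Finset.sum_nonneg (s := Finset.univ) fun j _ => hn j
      linarith
    · push Not at h
      obtain ⟨j, hj⟩ := h
      have := Finset.single_le_sum (s := Finset.univ) (fun j _ => hn j) (Finset.mem_univ j)
      rw [if_pos hj] at this
      linarith
  have three : ∑ j, ∑ w : Fin d → Fin 3, (if ∀ i, w i ≠ k j i then ∏ i, α (w i) else 0)
      ≤ n * (∑ s, α s - m) ^ d := by
    calc _ ≤ ∑ _j : Fin n, (∑ s, α s - m) ^ d := Finset.sum_le_sum fun j _ => one j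
      _ = _ := by simp
  linarith

end Pool.Agent.H.MP_e46b3e_an
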