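import Pool.Agent.H.MP_e46b3e_an.A

set_option autoImplicit false
open MeasureTheory

namespace Pool.Agent.H.MP_e46b3e_an

lemma ae_box (d : ℕ) : ∀ᵐ t ∂(Measure.pi fun _ : Fin d => nu), t ∈ Set.Icc (0 : Fin d → ℝ) 1 := by
  rw [← restrict_eq]
  exact ae_restrict_mem measurableSet_Icc

lemma ind_meas (x : ℝ) : Measurable (ind x) := by
  unfold ind
  exact Measurable.ite measurableSet_Ioi measurable_const measurable_const

lemma abs_ind (x u : ℝ) : |ind x u| ≤ 1 := by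
  unfold ind; split_ifs <;> simp

lemma int_pow {r : ℝ} (hr : 0 ≤ r) : Integrable (fun u : ℝ => u ^ r) nu := by
  unfold nu
  exact (Real.continuous_rpow_const hr).continuousOn.integrableOn_Icc

theorem core {p : ℝ} (hp : 1 < p) (Q : ℕ) (hQ : p.conjExponent ≤ Q) (hQe : Even Q)
    (h : Fin 3 → ℝ → ℝ) (m : ℝ)
    (H0 : ∀ u, ∑ s, h s u = 1)
    (H1 : ∀ s : Fin Q → Fin 3, Integrable (fun u => (∏ r, h (s r) u) * u ^ p) nu ∧
      0 ≤ ∫ u, (∏ r, h (s r) u) * u ^ p ∂nu)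
    (H2 : ∀ s, Integrable (fun u => h s u * u ^ p) nu ∧ 0 ≤ ∫ u, h s u * u ^ p ∂nu)
    (H3 : ∀ s x, Integrable (fun u => h s u * u ^ (p - 1) * ind x u) nu)
    (H4 : ∀ x, ∃ s, m ≤ ∫ u, h s u * u ^ p ∂nu ∧ ∫ u, h s u * u ^ (p - 1) * ind x u ∂nu = 0)
    {d n : ℕ} (x : Fin n → Fin d → ℝ) (a : Fin n → ℝ) {ε : ℝ} (hε0 : 0 < ε) (hε : ε ≤ 1 / 16)
    (hyp : ∫ t, |(∏ i, t i) - ∑ j, a j * ∏ i, ind (x j i) (t i)| ^ p
        ∂(Measure.pi fun _ : Fin d => nu)
      ≤ ε ^ p * ∫ t, |∏ i, t i| ^ p ∂(Measure.pi fun _ : Fin d => nu)) :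
    (∫ u, u ^ p ∂nu) ^ d / 4 ≤ n * ((∫ u, u ^ p ∂nu) - m) ^ d := by
  classical
  have hpq : p.HolderConjugate p.conjExponent := Real.HolderConjugate.conjExponent hp
  have hp0 : 0 ≤ p := by linarith
  choose κ hκm hκ0 using H4
  obtain ⟨μ, hμ⟩ : ∃ μ, μ = ∫ u, u ^ p ∂nu := ⟨_, rfl⟩
  rw [← hμ]
  let α : Fin 3 → ℝ := fun s => ∫ u, h s u * u ^ p ∂nu
  have hαs : ∑ s, α s = μ := by
    rw [hμ, ← integral_finsetSum _ fun s _ => (H2 s).1]
    congr 1; funext u
    rw [← Finset.sum_mul, H0, one_mul]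
  let S : Finset (Fin d → Fin 3) :=
    Finset.univ.filter (fun w : Fin d → Fin 3 => ∀ j, ∃ i, w i = κ (x j i))
  have hdrop := dropped α (fun s => (H2 s).2) m (fun j i => κ (x j i)) (fun j i => hκm _)
  rw [hαs] at hdrop
  let g : (Fin d → ℝ) → ℝ := fun t => ∑ w ∈ S, ∏ i, h (w i) (t i)
  obtain ⟨I1, E1⟩ := sumprod S (fun w i u => h (w i) u * u ^ p) (fun w i => (H2 _).1)
  have J2 := fun j => sumprod S (fun w i u => h (w i) u * u ^ (p - 1) * ind (x j i) u)
    (fun w i => H3 _ _)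
  have E2 : ∀ j, ∫ t, ∑ w ∈ S, ∏ i, (h (w i) (t i) * t i ^ (p - 1) * ind (x j i) (t i))
      ∂(Measure.pi fun _ : Fin d => nu) = 0 := by
    intro j
    rw [(J2 j).2]
    refine Finset.sum_eq_zero fun w hw => ?_
    obtain ⟨i, hi⟩ := (Finset.mem_filter.1 hw).2 j
    exact Finset.prod_eq_zero (Finset.mem_univ i) (by rw [hi]; exact hκ0 _)
  obtain ⟨I3, E3⟩ := sumprod (Fintype.piFinset fun _ : Fin Q => S)
    (fun W i u => (∏ r, h (W r i) u) * u ^ p) (fun W i => (H1 _).1)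
  obtain ⟨-, E4⟩ := sumprod (Finset.univ : Finset (Fin Q → Fin d → Fin 3))
    (fun W i u => (∏ r, h (W r i) u) * u ^ p) (fun W i => (H1 _).1)
  have I5 : Integrable (fun t : Fin d → ℝ => ∏ i, t i ^ p) (Measure.pi fun _ : Fin d => nu) :=
    Integrable.fintype_prod (f := fun _ u => u ^ p) fun _ => int_pow hp0
  have E5 : ∫ t, ∏ i, t i ^ p ∂(Measure.pi fun _ : Fin d => nu) = μ ^ d := by
    rw [integral_fintype_prod_eq_pow (fun u : ℝ => u ^ p), hμ, Fintype.card_fin]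
  have pw : ∀ (T : Finset (Fin d → Fin 3)) (t : Fin d → ℝ),
      ∑ W ∈ Fintype.piFinset fun _ : Fin Q => T, ∏ i, ((∏ r, h (W r i) (t i)) * t i ^ p)
        = (∑ w ∈ T, ∏ i, h (w i) (t i)) ^ Q * ∏ i, t i ^ p := by
    intro T t
    rw [Finset.sum_pow', Finset.sum_mul]
    refine Finset.sum_congr rfl fun W _ => ?_
    rw [Finset.prod_mul_distrib, Finset.prod_comm]
  have E4' : ∑ W : Fin Q → Fin d → Fin 3, ∏ i, ∫ u, (∏ r, h (W r i) u) * u ^ p ∂nu = μ ^ d := by
    rw [← E4, ← E5]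
    congr 1; funext t
    have h1 := pw Finset.univ t
    rw [Fintype.piFinset_univ] at h1
    rw [h1]
    have h2 := Finset.prod_univ_sum (fun _ : Fin d => (Finset.univ : Finset (Fin 3)))
      (fun i s => h s (t i))
    rw [Fintype.piFinset_univ] at h2
    rw [← h2]
    simp [H0]
  have B3 : ∑ W ∈ Fintype.piFinset fun _ : Fin Q => S,
      ∏ i, ∫ u, (∏ r, h (W r i) u) * u ^ p ∂nu ≤ μ ^ d := by
    rw [← E4']
    exact Finset.sum_le_sum_of_subset_of_nonneg (Finset.subset_univ _)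
      fun W _ _ => Finset.prod_nonneg fun i _ => (H1 _).2
  have E6 : ∫ t, |∏ i, t i| ^ p ∂(Measure.pi fun _ : Fin d => nu) = μ ^ d := by
    rw [← E5]
    refine integral_congr_ae ((ae_box d).mono fun t ht => ?_)
    have h0 : ∀ i, 0 ≤ t i := fun i => ht.1 i
    beta_reduce
    rw [abs_of_nonneg (Finset.prod_nonneg fun i _ => h0 i),
      Real.finsetProd_rpow _ _ (fun i _ => h0 i)]
  have I7 : Integrable (fun t : Fin d → ℝ =>
      |(∏ i, t i) - ∑ j, a j * ∏ i, ind (x j i) (t i)| ^ p) (Measure.pi fun _ : Fin d => nu) := by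
    have hm : Measurable fun t : Fin d → ℝ => (∏ i, t i) - ∑ j, a j * ∏ i, ind (x j i) (t i) := by
      refine (Finset.measurable_prod _ fun i _ => measurable_pi_apply i).sub
        (Finset.measurable_sum _ fun j _ => measurable_const.mul
          (Finset.measurable_prod _ fun i _ => (ind_meas _).comp (measurable_pi_apply i)))
    refine Integrable.of_bound
      ((Real.continuous_rpow_const hp0).measurable.comp hm.abs).aestronglyMeasurable
      ((1 + ∑ j, |a j|) ^ p) ((ae_box d).mono fun t ht => ?_)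
    rw [Real.norm_of_nonneg (Real.rpow_nonneg (abs_nonneg _) _)]
    refine Real.rpow_le_rpow (abs_nonneg _) ?_ hp0
    refine (abs_sub _ _).trans (add_le_add ?_ ?_)
    · rw [Finset.abs_prod]
      exact Finset.prod_le_one (fun i _ => abs_nonneg _) fun i _ => by
        rw [abs_of_nonneg (ht.1 i)]; exact ht.2 i
    · refine (Finset.abs_sum_le_sum_abs _ _).trans (Finset.sum_le_sum fun j _ => ?_)
      rw [abs_mul, Finset.abs_prod]
      exact mul_le_of_le_one_right (abs_nonneg _)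
        (Finset.prod_le_one (fun i _ => abs_nonneg _) fun i _ => abs_ind _ _)
  have I2 : Integrable (fun t : Fin d → ℝ => ∑ j, a j * ∑ w ∈ S,
      ∏ i, (h (w i) (t i) * t i ^ (p - 1) * ind (x j i) (t i))) (Measure.pi fun _ : Fin d => nu) :=
    integrable_finsetSum _ fun j _ => (J2 j).1.const_mul _
  have E2' : ∫ t, ∑ j, a j * ∑ w ∈ S,
      ∏ i, (h (w i) (t i) * t i ^ (p - 1) * ind (x j i) (t i))
        ∂(Measure.pi fun _ : Fin d => nu) = 0 := by
    rw [integral_finsetSum _ fun j _ => (J2 j).1.const_mul _]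
    refine Finset.sum_eq_zero fun j _ => ?_
    rw [integral_const_mul, E2, mul_zero]
  have key : ∫ t, ((∑ w ∈ S, ∏ i, (h (w i) (t i) * t i ^ p)) - ∑ j, a j * ∑ w ∈ S,
      ∏ i, (h (w i) (t i) * t i ^ (p - 1) * ind (x j i) (t i))) ∂(Measure.pi fun _ : Fin d => nu)
      ≤ ∫ t, (((∏ i, t i ^ p) + ∑ W ∈ Fintype.piFinset fun _ : Fin Q => S,
        ∏ i, ((∏ r, h (W r i) (t i)) * t i ^ p)) / 4 +
        4 ^ p * |(∏ i, t i) - ∑ j, a j * ∏ i, ind (x j i) (t i)| ^ p)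
          ∂(Measure.pi fun _ : Fin d => nu) := by
    refine integral_mono_ae (I1.sub I2) (((I5.add I3).div_const 4).add (I7.const_mul _))
      ((ae_box d).mono fun t ht => ?_)
    have h0 : ∀ i, 0 ≤ t i := fun i => ht.1 i
    have hV : 0 ≤ ∏ i, t i := Finset.prod_nonneg fun i _ => h0 i
    have hy := young hpq Q hQ hQe (g t) (∏ i, t i)
      ((∏ i, t i) - ∑ j, a j * ∏ i, ind (x j i) (t i)) hV
    beta_reduce
    rw [pw S t, Real.finsetProd_rpow _ _ (fun i _ => h0 i)]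
    refine le_trans (le_of_eq ?_) hy
    have c1 : ∑ w ∈ S, ∏ i, (h (w i) (t i) * t i ^ p) = g t * (∏ i, t i) ^ (p - 1) * ∏ i, t i := by
      have : (∏ i, t i) ^ (p - 1) * ∏ i, t i = (∏ i, t i) ^ p := by
        rw [← Real.rpow_add_one' hV (by linarith)]; congr 1; ring
      rw [mul_assoc, this, ← Real.finsetProd_rpow _ _ (fun i _ => h0 i), Finset.sum_mul]
      exact Finset.sum_congr rfl fun w _ => Finset.prod_mul_distrib
    have c2 : ∀ j, ∑ w ∈ S, ∏ i, (h (w i) (t i) * t i ^ (p - 1) * ind (x j i) (t i))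
        = g t * (∏ i, t i) ^ (p - 1) * ∏ i, ind (x j i) (t i) := by
      intro j
      rw [← Real.finsetProd_rpow _ _ (fun i _ => h0 i), Finset.sum_mul, Finset.sum_mul]
      refine Finset.sum_congr rfl fun w _ => ?_
      rw [Finset.prod_mul_distrib, Finset.prod_mul_distrib]
    rw [c1, mul_sub, Finset.mul_sum]
    congr 1
    refine Finset.sum_congr rfl fun j _ => ?_
    rw [c2]; ring
  have I8 : Integrable (fun t : Fin d → ℝ => ((∏ i, t i ^ p) +
      ∑ W ∈ Fintype.piFinset fun _ : Fin Q => S,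
        ∏ i, ((∏ r, h (W r i) (t i)) * t i ^ p)) / 4) (Measure.pi fun _ : Fin d => nu) :=
    (I5.add I3).div_const 4
  rw [integral_sub I1 I2, E1, E2', integral_add I8 (I7.const_mul _),
    integral_div, integral_add I5 I3, E5, E3, integral_const_mul] at key
  rw [E6] at hyp
  have hμ0 : 0 ≤ μ ^ d := by
    rw [← E6]; exact integral_nonneg fun t => Real.rpow_nonneg (abs_nonneg _) _
  have hε4 : (4:ℝ) ^ p * ε ^ p ≤ 1 / 4 := by
    rw [← Real.mul_rpow (by norm_num) hε0.le]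
    calc (4 * ε) ^ p ≤ (4 * ε) ^ (1:ℝ) :=
          Real.rpow_le_rpow_of_exponent_ge (by linarith) (by linarith) hp.le
      _ ≤ 1 / 4 := by rw [Real.rpow_one]; linarith
  have h4 : (0:ℝ) ≤ 4 ^ p := by positivity
  have k1 := mul_le_mul_of_nonneg_left hyp h4
  have k2 := mul_le_mul_of_nonneg_right hε4 hμ0
  have k3 : (4:ℝ) ^ p * (ε ^ p * μ ^ d) = 4 ^ p * ε ^ p * μ ^ d := by ring
  change μ ^ d - n * (μ - m) ^ d ≤ ∑ w ∈ S, ∏ i, ∫ u, h (w i) u * u ^ p ∂nu at hdrop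
  linarith

end Pool.Agent.H.MP_e46b3e_an
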